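import Pool.Agent.L7h6.CE.Cyc

/-! [EVC] of project CE (helper3). -/

set_option autoImplicit false

namespace Pool.Agent.L7h6.CE

open Set Pool.Agent.Helper391.Lg Pool.Agent.L7h3.CE

universe u v

variable {E : Type u} {V : Type v} {ends : E → Sym2 V}

theorem sym2_mem (z : Sym2 V) : ∃ x, x ∈ z := by
  induction z using Sym2.ind with
  | _ x y => exact ⟨x, Sym2.mem_mk_left _ _⟩

/-- the vertices of a component -/
theorem comp_vtx {R : Set E} {e f : E} (hf : f ∈ compE ends R e) (he : e ∈ R) {x y : V}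
    (hx : x ∈ ends e) (hy : y ∈ ends f) : (Gr ends R).Reachable x y := by
  obtain ⟨hfR, a, ha, b, hb, hab⟩ := hf
  exact ((adj_reach ends he hx ha).trans hab).trans (adj_reach ends hfR hb hy)

theorem comp_self {R : Set E} {e : E} (he : e ∈ R) : e ∈ compE ends R e := by
  obtain ⟨x, hx⟩ := sym2_mem (ends e)
  exact ⟨he, x, hx, x, hx, SimpleGraph.Reachable.refl _⟩

/-- an edge that meets a component is in it -/
theorem comp_meet {R : Set E} {e f g : E} (hf : f ∈ compE ends R e) (hg : g ∈ R) {x : V}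
    (hxf : x ∈ ends f) (hxg : x ∈ ends g) : g ∈ compE ends R e := by
  obtain ⟨hfR, a, ha, b, hb, hab⟩ := hf
  exact ⟨hg, a, ha, x, hxg, hab.trans (adj_reach ends hfR hb hxf)⟩

theorem comp_reach {R : Set E} {e : E} {x y : V} (w : (Gr ends R).Walk x y)
    (h : ∃ z ∈ ends e, (Gr ends R).Reachable z x) : (Gr ends (compE ends R e)).Reachable x y := by
  induction w with
  | nil => exact SimpleGraph.Reachable.refl _
  | @cons x x' y hadj w ih =>
    obtain ⟨z, hz, hzx⟩ := h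
    have hadj' := hadj
    rw [Gr, SimpleGraph.fromEdgeSet_adj] at hadj'
    obtain ⟨⟨g, hg, hge⟩, hne⟩ := hadj'
    have h1 : g ∈ compE ends R e :=
      ⟨hg, z, hz, x, by rw [hge]; exact Sym2.mem_mk_left _ _, hzx⟩
    have h2 : (Gr ends (compE ends R e)).Reachable x x' :=
      adj_reach ends h1 (by rw [hge]; exact Sym2.mem_mk_left _ _)
        (by rw [hge]; exact Sym2.mem_mk_right _ _)
    exact h2.trans (ih ⟨z, hz, hzx.trans hadj.reachable⟩)

theorem comp_con {R : Set E} {e : E} (he : e ∈ R) : ConI ends (compE ends R e) := by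
  intro f hf g hg x hx y hy
  obtain ⟨z, hz⟩ := sym2_mem (ends e)
  have h1 := comp_vtx hf he hz hx
  have h2 := comp_vtx hg he hz hy
  obtain ⟨w⟩ := h1.symm.trans h2
  exact comp_reach w ⟨z, hz, h1⟩

theorem comp_cr {R : Set E} {e : E} (X : Set V) :
    cr ends (compE ends R e) X = cr ends R (X ∩ {x | ∃ f ∈ compE ends R e, x ∈ ends f}) := by
  ext g
  constructor
  · rintro ⟨hg, ⟨x, hx, hxX⟩, y, hy, hyX⟩
    exact ⟨hg.1, ⟨x, hx, hxX, g, hg, hx⟩, y, hy, fun h => hyX h.1⟩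
  · rintro ⟨hg, ⟨x, hx, hxX, f, hf, hxf⟩, y, hy, hyX⟩
    have h1 : g ∈ compE ends R e := comp_meet hf hg hxf hx
    exact ⟨h1, ⟨x, hx, hxX⟩, y, hy, fun h => hyX ⟨h, g, h1, hy⟩⟩

theorem comp_eq {R : Set E} {e f : E} (he : e ∈ R) (hf : f ∈ compE ends R e) :
    compE ends R f = compE ends R e := by
  obtain ⟨x, hx⟩ := sym2_mem (ends e)
  obtain ⟨y, hy⟩ := sym2_mem (ends f)
  have h0 := comp_vtx hf he hx hy
  ext g
  constructor
  · intro hg
    obtain ⟨z, hz⟩ := sym2_mem (ends g)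
    exact ⟨hg.1, x, hx, z, hz, h0.trans (comp_vtx hg hf.1 hy hz)⟩
  · intro hg
    obtain ⟨z, hz⟩ := sym2_mem (ends g)
    exact ⟨hg.1, y, hy, z, hz, h0.symm.trans (comp_vtx hg he hx hz)⟩

theorem s_EVC : S_EVC.{u, v} := by
  intro E V ends R hR e he
  refine ⟨comp_self he, fun f hf => hf.1, comp_con he, ?_, fun f hf => comp_eq he hf, ?_⟩
  · intro X hX
    rw [comp_cr] at hX ⊢
    exact hR _ hX
  · intro f hf hfn g hg x hxf hxg
    exact hfn (comp_meet hg hf hxg hxf)

end Pool.Agent.L7h6.CE
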