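import Pool.Agent.L7h3.CE.Stm

/-! [EVQ] of project CE (helper3). -/

set_option autoImplicit false

namespace Pool.Agent.L7h6.CE

open Set Pool.Agent.Helper391.Lg Pool.Agent.L7h3.CE

universe u

theorem s_EVQ : S_EVQ.{u} := by
  classical
  intro V G D hD r s hr hs hrs hE
  have hSf : {x | ∃ e ∈ bd G D, x ∈ e}.Finite := by
    have h1 : {x | ∃ e ∈ bd G D, x ∈ e} = ⋃ e ∈ bd G D, {x | x ∈ e} := by
      ext x
      simp
    rw [h1]
    refine hD.biUnion fun e _ => ?_
    induction e using Sym2.ind with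
    | _ a b =>
      refine (Set.toFinite {a, b}).subset fun x hx => ?_
      have hx : x ∈ s(a, b) := hx
      rw [Sym2.mem_iff] at hx
      exact hx
  -- edges outside the finite set do not cross
  have key : ∀ x y : V, G.Adj x y → x ∉ hSf.toFinset → (x ∈ D ↔ y ∈ D) := by
    intro x y hxy hx
    rw [Set.Finite.mem_toFinset] at hx
    by_contra hne
    apply hx
    refine ⟨s(x, y), ⟨hxy, ?_⟩, Sym2.mem_mk_left _ _⟩
    by_cases hxD : x ∈ D
    · exact ⟨⟨x, Sym2.mem_mk_left _ _, hxD⟩, y, Sym2.mem_mk_right _ _, fun h => hne ⟨fun _ => h, fun _ => hxD⟩⟩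
    · refine ⟨⟨y, Sym2.mem_mk_right _ _, ?_⟩, x, Sym2.mem_mk_left _ _, hxD⟩
      by_contra hyD
      exact hne ⟨fun h => absurd h hxD, fun h => absurd h hyD⟩
  obtain ⟨m, n, hm, hn, w, hw⟩ := hrs hSf.toFinset
  obtain ⟨N, hN⟩ := hE
  have h1 : ∀ k, r (m + k) ∈ D ↔ r m ∈ D := by
    intro k
    induction k with
    | zero => rfl
    | succ k ih => exact (key _ _ (hr.2 (m + k)) (hm _ (by omega))).symm.trans ih
  have h2 : r m ∈ D := (h1 N).1 (hN _ (by omega))
  have h3 : ∀ x y : V, ∀ w : G.Walk x y, (∀ v ∈ w.support, v ∉ hSf.toFinset) → x ∈ D → y ∈ D := by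
    intro x y w
    induction w with
    | nil => exact fun _ h => h
    | cons hadj w ih =>
      intro hw hx
      exact ih (fun v hv => hw v (by rw [SimpleGraph.Walk.support_cons]; exact List.mem_cons_of_mem _ hv))
        ((key _ _ hadj (hw _ (by rw [SimpleGraph.Walk.support_cons]; exact List.mem_cons_self))).1 hx)
  have h4 : s n ∈ D := h3 _ _ w hw h2
  refine ⟨n, fun i hi => ?_⟩
  obtain ⟨k, rfl⟩ := Nat.exists_eq_add_of_le hi
  clear hi
  induction k with
  | zero => exact h4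
  | succ k ih => exact (key _ _ (hs.2 (n + k)) (hn _ (by omega))).1 ih

end Pool.Agent.L7h6.CE
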