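import Pool.Agent.L7h6.CE.Evc
import Pool.Agent.Helper391.Lg.P_tr_split

/-! [GROW] of project CE (helper3). -/

set_option autoImplicit false

namespace Pool.Agent.L7h6.CE

open Set Pool.Agent.Helper391.Lg Pool.Agent.L7h3.CE

universe u v

/-- a closed trail at `p` inside `I` -/
def CT {E : Type u} {V : Type v} (ends : E → Sym2 V) (I : Set E) (p : V) (l : List E) : Prop :=
  l.Nodup ∧ (∀ e ∈ l, e ∈ I) ∧ Tr ends p l p

/-- `q` is a vertex of the trail `l` -/
def On {E : Type u} {V : Type v} (ends : E → Sym2 V) (p : V) (l : List E) (q : V) : Prop :=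
  ∃ l₁ l₂ : List E, l = l₁ ++ l₂ ∧ Tr ends p l₁ q ∧ Tr ends q l₂ p

variable {E : Type u} {V : Type v} {ends : E → Sym2 V} {I : Set E} {p : V}

theorem insert_one (hC : S_CYC.{u, v}) (hD : S_EVD.{u, v}) (hI : EvenI ends I) {l : List E} (hl : CT ends I p l)
    {q : V} (hq : On ends p l q) {f : E} (hf : f ∈ I) (hqf : q ∈ ends f) :
    ∃ l' : List E, CT ends I p l' ∧ (∀ e ∈ l, e ∈ l') ∧ f ∈ l' := by
  classical
  by_cases hfl : f ∈ l
  · exact ⟨l, hl, fun e he => he, hfl⟩
  obtain ⟨hn, hlI, ht⟩ := hl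
  obtain ⟨l₁, l₂, rfl, h1, h2⟩ := hq
  have hE := hD E V ends I hI p _ ht hn hlI
  obtain ⟨m, hfm, hmn, hmI, hmt⟩ := hC E V ends _ hE f ⟨hf, hfl⟩ q hqf
  refine ⟨l₁ ++ (m ++ l₂), ⟨?_, ?_, ?_⟩, ?_, ?_⟩
  · rw [List.nodup_append] at hn
    obtain ⟨hn1, hn2, hn3⟩ := hn
    rw [List.nodup_append, List.nodup_append]
    refine ⟨hn1, ⟨hmn, hn2, ?_⟩, ?_⟩
    · rintro x hx y hy rfl
      exact (hmI x hx).2 (List.mem_append_right _ hy)
    · rintro x hx y hy rfl
      rcases List.mem_append.1 hy with hy | hy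
      · exact (hmI x hy).2 (List.mem_append_left _ hx)
      · exact hn3 x hx x hy rfl
  · intro e he
    rcases List.mem_append.1 he with he | he
    · exact hlI e (List.mem_append_left _ he)
    · rcases List.mem_append.1 he with he | he
      · exact (hmI e he).1
      · exact hlI e (List.mem_append_right _ he)
  · exact (tr_append ends _ _ _ _).2 ⟨q, h1, (tr_append ends _ _ _ _).2 ⟨q, hmt, h2⟩⟩
  · intro e he
    rcases List.mem_append.1 he with he | he
    · exact List.mem_append_left _ he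
    · exact List.mem_append_right _ (List.mem_append_right _ he)
  · exact List.mem_append_right _ (List.mem_append_left _ hfm)

theorem insert_list (hC : S_CYC.{u, v}) (hD : S_EVD.{u, v}) (hI : EvenI ends I) (t : List E) :
    ∀ (l : List E) (q b : V), CT ends I p l → On ends p l q → Tr ends q t b → (∀ e ∈ t, e ∈ I) →
      ∃ l' : List E, CT ends I p l' ∧ (∀ e ∈ l, e ∈ l') ∧ ∀ e ∈ t, e ∈ l' := by
  induction t with
  | nil => exact fun l q b hl _ _ _ => ⟨l, hl, fun e he => he, fun e he => by simp at he⟩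
  | cons f t ih =>
    intro l q b hl hq ht htI
    obtain ⟨c, hc, ht⟩ := ht
    have hqf : q ∈ ends f := by rw [hc]; exact Sym2.mem_mk_left _ _
    have hcf : c ∈ ends f := by rw [hc]; exact Sym2.mem_mk_right _ _
    obtain ⟨l', hl', h1, h2⟩ := insert_one hC hD hI hl hq (htI f List.mem_cons_self) hqf
    have hc' : On ends p l' c := tr_split ends l' p p c hl'.2.2 f h2 hcf
    obtain ⟨l'', hl'', h3, h4⟩ := ih l' c b hl' hc' ht fun e he => htI e (List.mem_cons_of_mem _ he)
    refine ⟨l'', hl'', fun e he => h3 e (h1 e he), fun e he => ?_⟩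
    rcases List.mem_cons.1 he with rfl | he
    · exact h3 _ h2
    · exact h4 e he

theorem insert_edge (hC : S_CYC.{u, v}) (hD : S_EVD.{u, v}) (hI : EvenI ends I) (hc : ConI ends I)
    (hp : ∃ e ∈ I, p ∈ ends e) (l : List E) (hl : CT ends I p l) (f : E) (hf : f ∈ I) :
    ∃ l' : List E, CT ends I p l' ∧ (∀ e ∈ l, e ∈ l') ∧ f ∈ l' := by
  obtain ⟨e₀, he₀, hpe⟩ := hp
  obtain ⟨x, hx⟩ := sym2_mem (ends f)
  obtain ⟨y, hy⟩ := sym2_out _ hx
  obtain ⟨t, -, ht1, ht2⟩ := tr_of_reachable ends I p x (hc e₀ he₀ f hf p hpe x hx)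
  obtain ⟨l', h1, h2, h3⟩ := insert_list hC hD hI (t ++ [f]) l p y hl ⟨[], l, rfl, rfl, hl.2.2⟩
    ((tr_append ends _ _ _ _).2 ⟨x, ht2, y, hy, rfl⟩) (fun e he => by
      rcases List.mem_append.1 he with he | he
      · exact ht1 e he
      · rw [List.mem_singleton.1 he]
        exact hf)
  exact ⟨l', h1, h2, h3 f (by simp)⟩

theorem s_GROW (hC : S_CYC.{u, v}) (hD : S_EVD.{u, v}) : S_GROW.{u, v} := by
  classical
  intro E V ends hlf I hc hI p hp F₀ hF hFf
  have key : ∀ F : Set E, F.Finite → F ⊆ I → ∃ l : List E, CT ends I p l ∧ ∀ e ∈ F, e ∈ l := by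
    intro F hF
    induction F, hF using Set.Finite.induction_on with
    | empty =>
      exact fun _ => ⟨[], ⟨List.nodup_nil, fun e he => by simp at he, rfl⟩, fun e he => by simp at he⟩
    | @insert f F hfF hF ih =>
      intro hsub
      obtain ⟨l, hl, h1⟩ := ih fun e he => hsub (Or.inr he)
      obtain ⟨l', hl', h2, h3⟩ := insert_edge hC hD hI hc hp l hl f (hsub (Or.inl rfl))
      refine ⟨l', hl', fun e he => ?_⟩
      rcases he with he | he
      · have he : e = f := he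
        rw [he]
        exact h3
      · exact h2 e (h1 e he)
  obtain ⟨l, ⟨h1, h2, h3⟩, h4⟩ := key (F₀ ∪ {e | e ∈ I ∧ p ∈ ends e})
    (hFf.union ((hlf p).subset fun e he => he.2)) (Set.union_subset hF fun e he => he.1)
  obtain ⟨e₀, he₀, hpe⟩ := hp
  exact ⟨l, List.ne_nil_of_mem (h4 e₀ (Or.inr ⟨he₀, hpe⟩)), h1, h2, h3, fun e he => h4 e (Or.inl he),
    fun e he hpe => h4 e (Or.inr ⟨he, hpe⟩)⟩

end Pool.Agent.L7h6.CE
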