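import Pool.Agent.L7h6.CE.Evc
import Pool.Agent.Helper391.Lg.P_absorb
import Pool.Agent.Helper391.Lg.P_tr_reach

/-! [STEP] of project CE (helper3). -/

set_option autoImplicit false

namespace Pool.Agent.L7h6.CE

open Set Pool.Agent.Helper391.Lg Pool.Agent.L7h3.CE

universe u v

variable {E : Type u} {V : Type v} {ends : E → Sym2 V}

theorem gr_mono {R R' : Set E} (h : R ⊆ R') {x y : V} (hr : (Gr ends R).Reachable x y) :
    (Gr ends R').Reachable x y :=
  hr.mono (SimpleGraph.fromEdgeSet_mono (Set.image_mono h))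

theorem walk_inv {R : Set E} (P : V → Prop) (hs : ∀ g ∈ R, ∀ x ∈ ends g, ∀ y ∈ ends g, P x → P y)
    {x y : V} (w : (Gr ends R).Walk x y) (hx : P x) : P y := by
  induction w with
  | nil => exact hx
  | @cons x x' y hadj w ih =>
    rw [Gr, SimpleGraph.fromEdgeSet_adj] at hadj
    obtain ⟨⟨g, hg, hge⟩, -⟩ := hadj
    exact ih (hs g hg x (by rw [hge]; exact Sym2.mem_mk_left _ _) x'
      (by rw [hge]; exact Sym2.mem_mk_right _ _) hx)

theorem sym2_finite (z : Sym2 V) : {x | x ∈ z}.Finite := by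
  classical
  induction z using Sym2.ind with
  | _ a b =>
    refine (Set.toFinite {a, b}).subset fun x hx => ?_
    have hx : x ∈ s(a, b) := hx
    rw [Sym2.mem_iff] at hx
    exact hx

theorem s_STEP (hG : S_GROW.{u, v}) (hD : S_EVD.{u, v}) : S_STEP.{u, v} := by
  classical
  intro E V ends hlf I hc hI p hp F₀ hF hFf
  obtain ⟨l, hl0, hn, hlI, ht, hlF, hlp⟩ := hG E V ends hlf I hc hI p hp F₀ hF hFf
  set R : Set E := I \ {e | e ∈ l} with hR
  have hRe : EvenI ends R := hD E V ends I hI p l ht hn hlI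
  obtain ⟨e₀, he₀, hpe⟩ := hp
  have he₀l := hlp e₀ he₀ hpe
  have touch : ∀ e ∈ R, ∃ g ∈ compE ends R e, ∃ x ∈ ends g, ∃ a ∈ l, x ∈ ends a := by
    intro e he
    by_contra hcon
    push Not at hcon
    obtain ⟨x, hx⟩ := sym2_mem (ends e)
    obtain ⟨w⟩ := hc e he.1 e₀ he₀ x hx p hpe
    obtain ⟨g, hg, hpg⟩ := walk_inv (fun y => ∃ g ∈ compE ends R e, y ∈ ends g) (by
      rintro h hh a ha b hb ⟨g, hg, hag⟩
      have hhR : h ∈ R := ⟨hh, fun hl => hcon g hg a hag h hl ha⟩
      exact ⟨h, comp_meet hg hhR hag ha, hb⟩) w ⟨e, comp_self he, hx⟩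
    exact hcon g hg p hpg e₀ he₀l hpe
  set Z : Set E := {e | e ∈ R ∧ (compE ends R e).Finite} with hZ
  have hcompZ : ∀ e ∈ Z, compE ends R e ⊆ Z := by
    intro e he f hf
    exact ⟨hf.1, by rw [comp_eq he.1 hf]; exact he.2⟩
  have hZf : Z.Finite := by
    have h1 : {g | g ∈ Z ∧ ∃ x ∈ ends g, ∃ a ∈ l, x ∈ ends a}.Finite := by
      have h2 : (⋃ a ∈ {a | a ∈ l}, ⋃ x ∈ {x | x ∈ ends a}, {g | x ∈ ends g}).Finite :=
        (List.finite_toSet l).biUnion fun a _ => (sym2_finite _).biUnion fun x _ => hlf x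
      refine h2.subset ?_
      rintro g ⟨-, x, hx, a, ha, hxa⟩
      simp only [Set.mem_iUnion, exists_prop]
      exact ⟨a, ha, x, hxa, hx⟩
    have h3 : (⋃ g ∈ {g | g ∈ Z ∧ ∃ x ∈ ends g, ∃ a ∈ l, x ∈ ends a}, compE ends R g).Finite :=
      h1.biUnion fun g hg => hg.1.2
    refine h3.subset fun e he => ?_
    obtain ⟨g, hg, x, hx, a, ha, hxa⟩ := touch e he.1
    simp only [Set.mem_iUnion, exists_prop]
    refine ⟨g, ⟨hcompZ e he hg, x, hx, a, ha, hxa⟩, ?_⟩
    rw [comp_eq he.1 hg]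
    exact comp_self he.1
  have hev : ∀ v, Even (dg ends Z v) := by
    intro v
    by_cases hv : ∃ e ∈ Z, v ∈ ends e
    · obtain ⟨e, he, hve⟩ := hv
      have h1 : {f | f ∈ Z ∧ v ∈ ends f ∧ ¬ (ends f).IsDiag} = cr ends R {v} := by
        ext f
        constructor
        · rintro ⟨hf, hvf, hnd⟩
          obtain ⟨y, hy⟩ := sym2_out _ hvf
          refine ⟨hf.1, ⟨v, hvf, rfl⟩, y, by rw [hy]; exact Sym2.mem_mk_right _ _, ?_⟩
          intro h
          have h : y = v := h
          apply hnd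
          rw [hy, h, Sym2.mk_isDiag_iff]
        · rintro ⟨hf, ⟨x, hx, hxv⟩, y, hy, hyv⟩
          have hxv : x = v := hxv
          subst hxv
          refine ⟨hcompZ e he (comp_meet (comp_self he.1) hf hve hx), hx, fun hd => hyv ?_⟩
          obtain ⟨z, hz⟩ := sym2_out _ hx
          rw [hz, Sym2.mk_isDiag_iff] at hd
          rw [hz, ← hd, Sym2.mem_iff] at hy
          rcases hy with h | h <;> exact h
      unfold dg
      rw [h1]
      refine hRe {v} ((hlf v).subset ?_)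
      rintro f ⟨-, ⟨x, hx, hxv⟩, -⟩
      have hxv : x = v := hxv
      rw [← hxv]
      exact hx
    · have h1 : {f | f ∈ Z ∧ v ∈ ends f ∧ ¬ (ends f).IsDiag} = ∅ := by
        rw [Set.eq_empty_iff_forall_notMem]
        rintro f ⟨hf, hvf, -⟩
        exact hv ⟨f, hf, hvf⟩
      unfold dg
      rw [h1, Set.ncard_empty]
      exact ⟨0, rfl⟩
  have hcon : ∀ e ∈ Z, ∀ x ∈ ends e, (Gr ends (Z ∪ {e | e ∈ l})).Reachable p x := by
    intro e he x hx
    obtain ⟨g, hg, y, hy, a, ha, hya⟩ := touch e he.1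
    have h1 : (Gr ends (Z ∪ {e | e ∈ l})).Reachable x y :=
      gr_mono ((hcompZ e he).trans Set.subset_union_left)
        (comp_con he.1 e (comp_self he.1) g hg x hx y hy)
    have h2 : (Gr ends (Z ∪ {e | e ∈ l})).Reachable p y :=
      (tr_reach ends _ l p p ht fun e he => Or.inr he).2 a ha y hya
    exact h2.trans h1.symm
  obtain ⟨P, hPt, hPn, hP⟩ := absorb ends Z hZf hev l p p ht hn (fun e he hZe => hZe.1.2 he) hcon
  refine ⟨P, ?_, hPn, ?_, hPt, fun e he => (hP e).2 (Or.inl (hlF e he)),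
    fun e he hpe => (hP e).2 (Or.inl (hlp e he hpe)), ?_⟩
  · exact List.ne_nil_of_mem ((hP e₀).2 (Or.inl he₀l))
  · intro e he
    rcases (hP e).1 he with he | he
    · exact hlI e he
    · exact he.1.1
  · intro e he heP
    have heR : e ∈ R := ⟨he, fun h => heP ((hP e).2 (Or.inl h))⟩
    have hinf : (compE ends R e).Infinite := by
      intro hfin
      exact heP ((hP e).2 (Or.inr ⟨heR, hfin⟩))
    have hsub : compE ends R e ⊆ I \ {x | x ∈ P} := by
      intro f hf
      refine ⟨hf.1.1, fun hfP => ?_⟩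
      rcases (hP f).1 hfP with h | h
      · exact hf.1.2 h
      · have := h.2
        rw [comp_eq heR hf] at this
        exact hinf this
    refine hinf.mono fun f hf => ?_
    obtain ⟨x, hx⟩ := sym2_mem (ends e)
    obtain ⟨y, hy⟩ := sym2_mem (ends f)
    exact ⟨hsub hf, x, hx, y, hy, gr_mono hsub (comp_con heR e (comp_self heR) f hf x hx y hy)⟩

end Pool.Agent.L7h6.CE
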