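import Pool.Agent.L7h3.CE.Stm
import Pool.Agent.Helper391.Lg.P_tr_of_reachable
import Pool.Agent.Helper391.Lg.P_tr_append

/-! [CYC] and [EVD] of project CE (helper3). -/

set_option autoImplicit false

namespace Pool.Agent.L7h6.CE

open Set Pool.Agent.Helper391.Lg Pool.Agent.L7h3.CE

universe u v

theorem sym2_out {V : Type*} (z : Sym2 V) {p : V} (hp : p ∈ z) : ∃ y, z = s(p, y) := by
  obtain ⟨y, hy⟩ := hp
  exact ⟨y, hy⟩

theorem adj_reach {E V : Type*} (ends : E → Sym2 V) {R : Set E} {g : E} (hg : g ∈ R) {x y : V}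
    (hx : x ∈ ends g) (hy : y ∈ ends g) : (Gr ends R).Reachable x y := by
  by_cases h : x = y
  · rw [h]
  · have h1 : ends g = s(x, y) := (Sym2.mem_and_mem_iff h).1 ⟨hx, hy⟩
    have h2 : (Gr ends R).Adj x y := by
      unfold Gr
      rw [SimpleGraph.fromEdgeSet_adj]
      exact ⟨⟨g, hg, h1⟩, h⟩
    exact h2.reachable

theorem s_CYC : S_CYC.{u, v} := by
  classical
  intro E V ends I hI f hf p hp
  obtain ⟨y, hy⟩ := sym2_out _ hp
  by_cases hpy : (Gr ends (I \ {f})).Reachable y p
  · obtain ⟨l, h1, h2, h3⟩ := tr_of_reachable ends _ y p hpy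
    refine ⟨f :: l, List.mem_cons_self, ?_, ?_, ⟨y, hy, h3⟩⟩
    · rw [List.nodup_cons]
      exact ⟨fun h => (h2 f h).2 rfl, h1⟩
    · intro e he
      rcases List.mem_cons.1 he with rfl | he
      · exact hf
      · exact (h2 e he).1
  · exfalso
    set X : Set V := {x | (Gr ends (I \ {f})).Reachable p x} with hX
    have hcr : cr ends I X = {f} := by
      ext e
      constructor
      · rintro ⟨he, ⟨x, hx, hxX⟩, z, hz, hzX⟩
        by_contra hne
        apply hzX
        have h1 : (Gr ends (I \ {f})).Reachable p x := hxX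
        exact h1.trans (adj_reach ends (show e ∈ I \ {f} from ⟨he, hne⟩) hx hz)
      · intro he
        have he : e = f := he
        rw [he]
        refine ⟨hf, ⟨p, hp, SimpleGraph.Reachable.refl _⟩, y, ?_, fun h => ?_⟩
        · rw [hy]; exact Sym2.mem_mk_right _ _
        · have h1 : (Gr ends (I \ {f})).Reachable p y := h
          exact hpy h1.symm
    have h1 := hI X (by rw [hcr]; exact Set.finite_singleton f)
    rw [hcr, Set.ncard_singleton] at h1
    exact absurd h1 (by decide)

/-- the crossing edges of a trail -/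
theorem tr_cross {E : Type u} {V : Type v} (ends : E → Sym2 V) (X : Set V) (l : List E) (a b : V)
    (h : Tr ends a l b) (hn : l.Nodup) :
    Even (cr ends {e | e ∈ l} X).ncard ↔ (a ∈ X ↔ b ∈ X) := by
  classical
  induction l generalizing a with
  | nil =>
    have h' : a = b := h
    subst h'
    have : cr ends {e : E | e ∈ ([] : List E)} X = ∅ := by
      ext e
      simp [cr]
    rw [this, Set.ncard_empty]
    simp
  | cons e l ih =>
    obtain ⟨c, hc, ht⟩ := h
    rw [List.nodup_cons] at hn
    have ih := ih c ht hn.2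
    have hfin : (cr ends {f | f ∈ l} X).Finite :=
      (List.finite_toSet l).subset fun f hf => hf.1
    by_cases hac : (a ∈ X ↔ c ∈ X)
    · have h1 : cr ends {f | f ∈ e :: l} X = cr ends {f | f ∈ l} X := by
        ext f
        constructor
        · rintro ⟨hf, ⟨x, hx, hxX⟩, z, hz, hzX⟩
          refine ⟨?_, ⟨x, hx, hxX⟩, z, hz, hzX⟩
          rcases List.mem_cons.1 hf with rfl | hf
          · exfalso
            rw [hc, Sym2.mem_iff] at hx hz
            rcases hx with rfl | rfl <;> rcases hz with rfl | rfl <;> tauto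
          · exact hf
        · rintro ⟨hf, h1, h2⟩
          exact ⟨List.mem_cons_of_mem _ hf, h1, h2⟩
      rw [h1, ih, hac]
    · have h1 : cr ends {f | f ∈ e :: l} X = insert e (cr ends {f | f ∈ l} X) := by
        ext f
        constructor
        · rintro ⟨hf, h1, h2⟩
          rcases List.mem_cons.1 hf with rfl | hf
          · exact Or.inl rfl
          · exact Or.inr ⟨hf, h1, h2⟩
        · rintro (hf | ⟨hf, h1, h2⟩)
          · have hf : f = e := hf
            rw [hf]
            refine ⟨List.mem_cons_self, ?_⟩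
            have ha : a ∈ ends e := by rw [hc]; exact Sym2.mem_mk_left _ _
            have hc' : c ∈ ends e := by rw [hc]; exact Sym2.mem_mk_right _ _
            by_cases haX : a ∈ X
            · exact ⟨⟨a, ha, haX⟩, c, hc', fun h => hac ⟨fun _ => h, fun _ => haX⟩⟩
            · refine ⟨⟨c, hc', ?_⟩, a, ha, haX⟩
              by_contra hcX
              exact hac ⟨fun h => absurd h haX, fun h => absurd h hcX⟩
          · exact ⟨List.mem_cons_of_mem _ hf, h1, h2⟩
      rw [h1, Set.ncard_insert_of_notMem (fun h => hn.1 h.1) hfin, Nat.even_add_one, ih]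
      tauto

theorem s_EVD : S_EVD.{u, v} := by
  classical
  intro E V ends I hI p l hl hn hlI X hX
  have h1 : cr ends I X = cr ends (I \ {e | e ∈ l}) X ∪ cr ends {e | e ∈ l} X := by
    ext e
    constructor
    · rintro ⟨he, h2, h3⟩
      by_cases h : e ∈ l
      · exact Or.inr ⟨h, h2, h3⟩
      · exact Or.inl ⟨⟨he, h⟩, h2, h3⟩
    · rintro (⟨he, h2, h3⟩ | ⟨he, h2, h3⟩)
      · exact ⟨he.1, h2, h3⟩
      · exact ⟨hlI e he, h2, h3⟩
  have hfin : (cr ends {f | f ∈ l} X).Finite :=
    (List.finite_toSet l).subset fun f hf => hf.1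
  have hd : Disjoint (cr ends (I \ {e | e ∈ l}) X) (cr ends {e | e ∈ l} X) := by
    rw [Set.disjoint_left]
    rintro e he he'
    exact he.1.2 he'.1
  have h2 := hI X (by rw [h1]; exact hX.union hfin)
  rw [h1, Set.ncard_union_eq hd hX hfin, Nat.even_add] at h2
  exact h2.2 ((tr_cross ends X l p p hl hn).2 Iff.rfl)

end Pool.Agent.L7h6.CE
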